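import Pool.Agent.Helper21.W4.St1

set_option autoImplicit false

namespace Pool.Agent.Helper61.W4

open Pool.Agent.Helper21.W4 Finset

private theorem fl_bd (a b c : ℕ) (ha : a ≤ c) (hb : b ≤ c) (hc : 2 ≤ c) (h1 : 1 ≤ a) (h2 : 1 ≤ b) :
    2 * (((if a < c ∧ b < c then 1 else 0 : ℕ) : ℕ) : ℤ) -
      (((if a = c ∨ b = c then c else 0 : ℕ) : ℕ) : ℤ) ≤ fl (c - 1) (max (a - 1) (b - 1)) := by
  unfold fl
  by_cases h : a < c ∧ b < c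
  · have h3 : ¬ (a = c ∨ b = c) := by omega
    have h4 : max (a - 1) (b - 1) < c - 1 := by omega
    rw [if_pos h, if_neg h3, if_pos h4]
    norm_num
  · have h3 : (a = c ∨ b = c) := by omega
    have h4 : ¬ max (a - 1) (b - 1) < c - 1 := by omega
    rw [if_neg h, if_pos h3, if_neg h4]
    have : ((c - 1 : ℕ) : ℤ) = (c : ℤ) - 1 := by omega
    rw [this]
    push_cast
    linarith

theorem hEq : StEq := by
  intro hAr hVol hBk hInt hCard hCap hALc hALa hALb hMx hOne hNd B h1 h2 h3 c1 c2 c3 κ hC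
  have pp := hC.pp
  have ppb : PP B (fun q r => h1 r q) h3 h2 :=
    { e12 := fun p q r => pp.e13 p r q
      e13 := fun p q r => pp.e12 p r q
      bd := fun p q r h => by
        have := pp.bd p r q h
        exact ⟨this.1, this.2.2, this.2.1⟩
      n1 := pp.n1
      n2 := pp.n3
      n3 := pp.n2 }
  have ppc : PP B (fun q r => h2 r q) (fun p q => h3 q p) h1 :=
    { e12 := fun p q r => (pp.e12 r p q).symm.trans (pp.e13 r p q)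
      e13 := fun p q r => (pp.e12 r p q).symm
      bd := fun p q r h => by
        have := pp.bd r p q ((pp.e12 r p q).2 h)
        exact ⟨this.2.1, this.2.2, this.1⟩
      n1 := pp.n2
      n2 := pp.n3
      n3 := pp.n1 }
  have pa0 : PP0 B h1 h2 h3 := ⟨pp.e12, pp.e13, pp.bd⟩
  have pb0 : PP0 B (fun q r => h1 r q) h3 h2 := ⟨ppb.e12, ppb.e13, ppb.bd⟩
  have pc0 : PP0 B (fun q r => h2 r q) (fun p q => h3 q p) h1 := ⟨ppc.e12, ppc.e13, ppc.bd⟩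
  obtain ⟨ar1, ar2, ar3, -⟩ := hAr B h1 h2 h3 pa0
  obtain ⟨cap3, cap2, cap1⟩ := hCap B h1 h2 h3 c1 c2 c3 hC
  have L3 := hALc hALa hALb B h3 c1 c2 c3 ar3 hC.g1 hC.g2 hC.g3 pp.n3 cap3
  have L2 := hALc hALa hALb B h2 c1 c3 c2 ar2 hC.g1 hC.g3 hC.g2 pp.n2 cap2
  have L1 := hALc hALa hALb B h1 c2 c3 c1 ar1 hC.g2 hC.g3 hC.g1 pp.n1 cap1
  have X3 := hMx B h1 h2 h3 pp
  have X2 := hMx B _ _ _ ppb
  have X1 := hMx B _ _ _ ppc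
  obtain ⟨O31, O32⟩ := hOne B h1 h2 h3 pp
  obtain ⟨O21, O22⟩ := hOne B _ _ _ ppb
  obtain ⟨O11, O12⟩ := hOne B _ _ _ ppc
  obtain ⟨N31, N32⟩ := hNd B h1 h2 h3 pp
  obtain ⟨N21, N22⟩ := hNd B _ _ _ ppb
  obtain ⟨N11, N12⟩ := hNd B _ _ _ ppc
  have I3 := hInt B h1 h2 h3 pa0
  have I2 := hInt B _ _ _ pb0
  have I1 := hInt B _ _ _ pc0
  obtain ⟨b1, b2⟩ := hBk hVol B h1 h2 h3 pa0
  have cd := hCard hInt B h1 h2 h3 pp
  -- the monotonicity at the origin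
  have m11 := ar1.a1 0 0
  have m12 := ar1.a2 0 0
  have m21 := ar2.a1 0 0
  have m22 := ar2.a2 0 0
  have m31 := ar3.a1 0 0
  have m32 := ar3.a2 0 0
  have n1 := pp.n1
  have n2 := pp.n2
  have n3 := pp.n3
  have p11 : 0 < h1 1 0 := (pp.e12 0 1 0).2 pp.n2
  have p12 : 0 < h1 0 1 := (pp.e13 0 0 1).2 pp.n3
  have p21 : 0 < h2 1 0 := (pp.e12 1 0 0).1 pp.n1
  have p22 : 0 < h2 0 1 := (pp.e12 0 0 1).1 p12
  have p31 : 0 < h3 1 0 := (pp.e13 1 0 0).1 pp.n1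
  have p32 : 0 < h3 0 1 := (pp.e13 0 1 0).1 p11
  simp only [zero_add] at m11 m12 m21 m22 m31 m32
  have F1 := fl_bd (h1 1 0) (h1 0 1) (h1 0 0) m11 m12 n1 p11 p12
  have F2 := fl_bd (h2 1 0) (h2 0 1) (h2 0 0) m21 m22 n2 p21 p22
  have F3 := fl_bd (h3 1 0) (h3 0 1) (h3 0 0) m31 m32 n3 p31 p32
  have q11 : ((h1 0 0 - 1 : ℕ) : ℤ) = (h1 0 0 : ℤ) - 1 := by omega
  have q12 : ((h1 1 0 - 1 : ℕ) : ℤ) = (h1 1 0 : ℤ) - 1 := by omega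
  have q13 : ((h1 0 1 - 1 : ℕ) : ℤ) = (h1 0 1 : ℤ) - 1 := by omega
  have q21 : ((h2 0 0 - 1 : ℕ) : ℤ) = (h2 0 0 : ℤ) - 1 := by omega
  have q22 : ((h2 1 0 - 1 : ℕ) : ℤ) = (h2 1 0 : ℤ) - 1 := by omega
  have q23 : ((h2 0 1 - 1 : ℕ) : ℤ) = (h2 0 1 : ℤ) - 1 := by omega
  have q31 : ((h3 0 0 - 1 : ℕ) : ℤ) = (h3 0 0 : ℤ) - 1 := by omega
  have q32 : ((h3 1 0 - 1 : ℕ) : ℤ) = (h3 1 0 : ℤ) - 1 := by omega
  have q33 : ((h3 0 1 - 1 : ℕ) : ℤ) = (h3 0 1 : ℤ) - 1 := by omega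
  have e2 : (if h1 0 1 < h1 0 0 ∧ h1 1 0 < h1 0 0 then 1 else 0 : ℕ) =
      (if h1 1 0 < h1 0 0 ∧ h1 0 1 < h1 0 0 then 1 else 0 : ℕ) := by
    simp only [and_comm]
  have e3 : (if h2 0 1 < h2 0 0 ∧ h2 1 0 < h2 0 0 then 1 else 0 : ℕ) =
      (if h2 1 0 < h2 0 0 ∧ h2 0 1 < h2 0 0 then 1 else 0 : ℕ) := by
    simp only [and_comm]
  have e4 : (if h3 0 1 < h3 0 0 ∧ h3 1 0 < h3 0 0 then 1 else 0 : ℕ) =
      (if h3 1 0 < h3 0 0 ∧ h3 0 1 < h3 0 0 then 1 else 0 : ℕ) := by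
    simp only [and_comm]
  simp only [e2, e3, e4] at X1 X2 X3
  unfold org at L1 L2 L3
  simp only [dat, X0, W1, W2, W3] at *
  generalize (if h1 1 0 < h1 0 0 ∧ h1 0 1 < h1 0 0 then 1 else 0 : ℕ) = f1 at *
  generalize (if h2 1 0 < h2 0 0 ∧ h2 0 1 < h2 0 0 then 1 else 0 : ℕ) = f2 at *
  generalize (if h3 1 0 < h3 0 0 ∧ h3 0 1 < h3 0 0 then 1 else 0 : ℕ) = f3 at *
  generalize (if h1 1 0 = h1 0 0 ∨ h1 0 1 = h1 0 0 then h1 0 0 else 0 : ℕ) = g1 at *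
  generalize (if h2 1 0 = h2 0 0 ∨ h2 0 1 = h2 0 0 then h2 0 0 else 0 : ℕ) = g2 at *
  generalize (if h3 1 0 = h3 0 0 ∨ h3 0 1 = h3 0 0 then h3 0 0 else 0 : ℕ) = g3 at *
  generalize fl (h1 0 0 - 1) (max (h1 1 0 - 1) (h1 0 1 - 1)) = k1 at *
  generalize fl (h2 0 0 - 1) (max (h2 1 0 - 1) (h2 0 1 - 1)) = k2 at *
  generalize fl (h3 0 0 - 1) (max (h3 1 0 - 1) (h3 0 1 - 1)) = k3 at *
  zify at L1 L2 L3 X1 X2 X3 O31 O32 O21 O22 O11 O12 N31 N32 N21 N22 N11 N12 I1 I2 I3 b1 b2 cd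
  push_cast at *
  linarith
end Pool.Agent.Helper61.W4
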